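import Mathlib
import Pool.Agent.Lib.helper5.Book

namespace Pool.Agent.Results.MP_1fec7a_co.Q2

open Pool.Agent.Lib.helper5.Book SimpleGraph Finset

/-- incidence graph of the hypergraph with edges `E i` -/
def Inc {n m : ℕ} (E : Fin m → Finset (Fin n)) : SimpleGraph (Fin n ⊕ Fin m) :=
  fromRel fun a b => ∃ v i, a = .inl v ∧ b = .inr i ∧ v ∈ E i

/-- reduced genus `0`: `G` is the adjacency multigraph of a hypergraph of genus `0` -/
def RedGenusZero {n : ℕ} (G : SimpleGraph (Fin n)) : Prop :=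
  ∃ (m : ℕ) (E : Fin m → Finset (Fin n)), Planar (Inc E) ∧ ∀ u v, u ≠ v →
    (G.Adj u v → #{i | u ∈ E i ∧ v ∈ E i} = 1) ∧ (¬ G.Adj u v → #{i | u ∈ E i ∧ v ∈ E i} = 0)

/-- distinct maximal cliques share at most one vertex -/
def CliquePartitioned {n : ℕ} (G : SimpleGraph (Fin n)) : Prop :=
  ∀ s t, Maximal G.IsClique s → Maximal G.IsClique t → s ≠ t → (s ∩ t).Subsingleton

/-- Heawood's function -/
noncomputable def H (g : ℕ) : ℝ := (7 + √(1 + 48 * g)) / 2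

def E : Fin 15 → Finset (Fin 13) := ![{0, 1, 3}, {1, 2, 4}, {0, 5}, {2, 5}, {3, 6}, {4, 6}, {5, 6},
  {0, 7, 9}, {7, 8, 10}, {0, 11}, {8, 11}, {9, 12}, {10, 12}, {11, 12}, {2, 8}]
def P : Fin 15 → Finset (Fin 13) :=
  ![{0}, ∅, {0, 5}, {5}, ∅, {6}, {5, 6}, {7}, {7, 10}, {0}, ∅, {12}, {12}, {11, 12}, ∅]
def ρ : Fin 13 ⊕ Fin 15 → ℕ := Sum.elim ![27, 1, 8, 5, 7, 13, 4, 22, 12, 23, 24, 17, 19]
  ![2, 0, 15, 10, 3, 6, 9, 21, 20, 16, 14, 26, 25, 18, 11]
def B (F : Fin 15 → Finset (Fin 13)) : Fin 13 ⊕ Fin 15 → Fin 13 ⊕ Fin 15 → Bool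
  | .inl v, .inr i => v ∈ F i
  | .inr i, .inl v => v ∈ F i
  | _, _ => false
def G : SimpleGraph (Fin 13) := fromRel fun u v => ∃ i, u ∈ E i ∧ v ∈ E i
instance : DecidableRel G.Adj := fun u v => inferInstanceAs (Decidable (u ≠ v ∧ (_ ∨ _)))

lemma uq : ∀ u v, G.Adj u v → ∀ x y, G.Adj u x → G.Adj v x → G.Adj u y → G.Adj v y → x = y := by
  decide +kernel

theorem result : ∃ (n : ℕ) (G : SimpleGraph (Fin n)), RedGenusZero G ∧ CliquePartitioned G ∧
    ∀ k : ℕ, G.Colorable k → max (H 0 - 1) G.cliqueNum < k := by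
  refine ⟨13, G, ⟨15, E, ?_, by decide +kernel⟩, fun s t hs ht h u hu v hv => ?_, fun k hk => ?_⟩
  · have := book (fun a b => B E a b = true ∧ ρ a < ρ b) ρ (by decide +kernel) (B P)
      (fun _ _ h => h.2) (by
        have : ∀ u v, B E u v = true ∧ ρ u < ρ v → ∀ x y, B E x y = true ∧ ρ x < ρ y →
          B P u v = B P x y → ¬ (ρ u < ρ x ∧ ρ x < ρ v ∧ ρ v < ρ y) := by decide +kernel
        exact fun u v x y h => this u v h x y)
    convert this
    ext a b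
    simp only [Inc, fromRel_adj]
    revert a b
    decide +kernel
  · by_contra e
    have : G.IsClique (s ∪ t) := by
      have key : ∀ x ∈ s, ∀ y ∈ t, x ≠ y → G.Adj x y := fun x hx y hy hxy => by
        by_cases h1 : x ∈ t
        · exact ht.1 h1 hy hxy
        by_cases h2 : y ∈ s
        · exact hs.1 hx h2 hxy
        exact absurd (uq u v (hs.1 hu.1 hv.1 e) x y (hs.1 hu.1 hx fun h => h1 (h ▸ hu.2))
          (hs.1 hv.1 hx fun h => h1 (h ▸ hv.2)) (ht.1 hu.2 hy fun h => h2 (h ▸ hu.1))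
          (ht.1 hv.2 hy fun h => h2 (h ▸ hv.1))) hxy
      rintro x (hx | hx) y (hy | hy) hxy
      exacts [hs.1 hx hy hxy, key x hx y hy hxy, (key y hy x hx hxy.symm).symm, ht.1 hx hy hxy]
    exact h ((hs.eq_of_le this Set.subset_union_left).trans
      (ht.eq_of_le this Set.subset_union_right).symm)
  · have h4 : 4 ≤ k := by
      by_contra! h
      obtain ⟨c⟩ := hk.mono (show k ≤ 3 by omega)
      have d : ∀ a b c d e f g : Fin 3, a ≠ b → a ≠ d → b ≠ d → b ≠ c → b ≠ e → c ≠ e → a ≠ f →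
        c ≠ f → d ≠ g → e ≠ g → f ≠ g → a = c := by omega
      have v : ∀ x y, G.Adj x y → c x ≠ c y := fun x y h => c.valid h
      refine v 2 8 (by decide) ((d (c 0) (c 1) (c 2) (c 3) (c 4) (c 5) (c 6) ?_ ?_ ?_ ?_ ?_ ?_ ?_ ?_
        ?_ ?_ ?_).symm.trans (d (c 0) (c 7) (c 8) (c 9) (c 10) (c 11) (c 12) ?_ ?_ ?_ ?_ ?_ ?_ ?_ ?_
        ?_ ?_ ?_)) <;> exact v _ _ (by decide)
    have h3 : G.cliqueNum < 4 := by
      by_contra! h
      obtain ⟨s, hs⟩ := G.exists_isNClique_cliqueNum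
      obtain ⟨t, ht, h0⟩ := exists_subset_card_eq (hs.2 ▸ h : 4 ≤ #s)
      obtain ⟨a, b, c, d, h1, h2, h3, h4, h5, h6, rfl⟩ := card_eq_four.1 h0
      have := hs.1.subset (coe_subset.2 ht)
      exact h6 (uq a b (this (by simp) (by simp) h1) c d (this (by simp) (by simp) h2)
        (this (by simp) (by simp) h4) (this (by simp) (by simp) h3) (this (by simp) (by simp) h5))
    have : (4 : ℝ) ≤ k := by exact_mod_cast h4
    refine max_lt (by simp [H]; linarith) (by exact_mod_cast h3.trans_le h4)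

end Pool.Agent.Results.MP_1fec7a_co.Q2
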